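import Pool.Agent.H18.ER.Plane

/-!
# MP_024b85_co: red unit distance or blue congruent copy of `K`

Let `K` be a set of points of the plane, all of which, with at most two exceptions, lie on the unit
circle with centre `O`, where `O` is not a point of `K`. Then every colouring of the plane with red
and blue has two red points at distance one or a blue set congruent to `K`.
-/

set_option autoImplicit false

namespace Pool.Agent.Results.MP_024b85_co.UnitCircleTwoPoints

/-- the Euclidean plane -/
abbrev Plane : Type := EuclideanSpace ℝ (Fin 2)

/-- For every set of red points (all other points of the plane are blue) there are two red points at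
distance one, or an isometry of the plane which maps all points of `K` to blue points. -/
def Forces (K : Set Plane) : Prop :=
  ∀ red : Set Plane, (∃ x ∈ red, ∃ y ∈ red, dist x y = 1) ∨
    ∃ f : Plane ≃ᵢ Plane, ∀ k ∈ K, f k ∉ red

/-- If all points of `K` other than `c` and `d` are at distance one from a point `O` which is not in
`K`, then `K` has the property of the question. -/
theorem result : ∀ (K : Set Plane) (O c d : Plane), O ∉ K →
    (∀ k ∈ K, dist k O = 1 ∨ k = c ∨ k = d) → Forces K := by
  intro K O c d hO hK red
  obtain ⟨w, hw⟩ : ∃ w : Plane, w ≠ O := exists_ne O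
  -- replace `c`, `d` by other points if they are the centre
  obtain ⟨c', hc', hc''⟩ : ∃ c' : Plane, c' ≠ O ∧ ∀ k ∈ K, k = c → k = c' := by
    by_cases h : c = O
    · exact ⟨w, hw, fun k hk hkc => absurd (by rw [← h, ← hkc]; exact hk) hO⟩
    · exact ⟨c, h, fun k _ hkc => hkc⟩
  obtain ⟨d', hd', hd''⟩ : ∃ d' : Plane, d' ≠ O ∧ ∀ k ∈ K, k = d → k = d' := by
    by_cases h : d = O
    · exact ⟨w, hw, fun k hk hkd => absurd (by rw [← h, ← hkd]; exact hk) hO⟩
    · exact ⟨d, h, fun k _ hkd => hkd⟩
  rcases Pool.Agent.H18.ER.real_plane O c' d' hc' hd' red with h | ⟨f, hf⟩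
  · exact Or.inl h
  · refine Or.inr ⟨f, fun k hk => hf k ?_⟩
    rcases hK k hk with h | h | h
    · exact Or.inl h
    · exact Or.inr (Or.inl (hc'' k hk h))
    · exact Or.inr (Or.inr (hd'' k hk h))

end Pool.Agent.Results.MP_024b85_co.UnitCircleTwoPoints
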